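import Pool.Agent.H71.CQ.Basic

/-!
# Row CTT: countably many pieces
-/

set_option autoImplicit false

open Set

namespace Pool.Agent.H27.CQ

open Pool.Agent.H71.CQ

/-- a countable set of representatives for the values of a map to a countable type -/
theorem exists_reps {A B : Type} [Countable B] (ρ : A → B) (S : Set A) :
    ∃ T : Set A, T ⊆ S ∧ T.Countable ∧ ∀ a ∈ S, ∃ t ∈ T, ρ t = ρ a := by
  classical
  have hch : ∀ b : ρ '' S, ∃ a, a ∈ S ∧ ρ a = b := fun b => b.2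
  choose c hc using hch
  refine ⟨Set.range c, ?_, Set.countable_range c, fun a ha => ?_⟩
  · rintro _ ⟨b, rfl⟩
    exact (hc b).1
  · exact ⟨c ⟨ρ a, a, ha, rfl⟩, ⟨_, rfl⟩, (hc _).2⟩

/-- pieces over the algebraic part of `e0` -/
abbrev Pc {L : Type} (N : NF L) (e0 : ℕ → ℕ → L) : Type :=
  Σ e : ℕ → ℕ → L, ({x // Wp N e0 x} ≃ {x // Wp N e x}) × ℕ

/-- good pieces -/
structure Gp {L : Type} (N : NF L) (e0 : ℕ → ℕ → L) (p : Pc N e0) : Prop where
  m : Mem N p.1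
  s : ∀ q, (Srt e0 q).Infinite ↔ (Srt p.1 q).Infinite
  w : WIso N e0 p.1 p.2.1
  hx : ¬ Wp N p.1 p.2.2

/-- equivalent pieces -/
def Eqp {L : Type} (N : NF L) (e0 : ℕ → ℕ → L) (p q : Pc N e0) : Prop :=
  PI N p.1 q.1 (p.2.1.symm.trans q.2.1) p.2.2 q.2.2

section

variable {L : Type} {N : NF L} {e0 : ℕ → ℕ → L}

theorem eqp_refl (p : Pc N e0) : Eqp N e0 p p := by
  unfold Eqp
  rw [Equiv.symm_trans_self]
  exact pi_refl _

theorem Eqp.symm {p q : Pc N e0} (h : Eqp N e0 p q) : Eqp N e0 q p := by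
  have h1 := PI.symm h
  exact h1

theorem Eqp.trans {p q r : Pc N e0} (h : Eqp N e0 p q) (h' : Eqp N e0 q r) : Eqp N e0 p r := by
  have h1 := PI.trans h h'
  have h2 : (p.2.1.symm.trans q.2.1).trans (q.2.1.symm.trans r.2.1) = p.2.1.symm.trans r.2.1 := by
    ext k
    simp
  rw [h2] at h1
  exact h1

end

theorem pf_CTT : T_CTT := by
  classical
  intro L N hN e0 he0 hfin hD
  obtain ⟨D, hDc, hD1, hD2⟩ := hD
  -- representatives for one element of `D`
  have key : ∀ d : D, ∃ T : Set ({x // Wp N e0 x} ≃ {x // Wp N d.1.1 x}), T.Countable ∧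
      (∀ G ∈ T, WIso N e0 d.1.1 G) ∧ ∀ G, WIso N e0 d.1.1 G → ∃ G' ∈ T,
        ∀ k, Lk N d.1.1 d.1.2 k → G'.symm k = G.symm k := by
    intro d
    obtain ⟨h1, _, h3⟩ := hD1 d.1 d.2
    have hK := hfin d.1.1 h1 d.1.2 h3
    have : Finite {k // Lk N d.1.1 d.1.2 k} := hK
    obtain ⟨T, hT1, hT2, hT3⟩ := exists_reps
      (fun (G : {x // Wp N e0 x} ≃ {x // Wp N d.1.1 x}) (k : {k // Lk N d.1.1 d.1.2 k}) =>
        G.symm k.1) {G | WIso N e0 d.1.1 G}
    refine ⟨T, hT2, fun G hG => hT1 hG, fun G hG => ?_⟩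
    obtain ⟨G', hG', he⟩ := hT3 G hG
    exact ⟨G', hG', fun k hk => congrFun he ⟨k, hk⟩⟩
  choose T hT1 hT2 hT3 using key
  -- the countable set of pieces
  obtain ⟨C, hC⟩ : ∃ C : Set (Pc N e0), C = ⋃ d : D, (fun G => (⟨d.1.1, G, d.1.2⟩ : Pc N e0)) '' T d :=
    ⟨_, rfl⟩
  have : Countable D := hDc.to_subtype
  have hCc : C.Countable := by
    rw [hC]
    exact Set.countable_iUnion fun d => (hT1 d).image _
  have hCg : ∀ p ∈ C, Gp N e0 p := by
    intro p hp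
    rw [hC] at hp
    obtain ⟨d, G, hG, rfl⟩ := Set.mem_iUnion.1 hp
    obtain ⟨h1, h2, h3⟩ := hD1 d.1 d.2
    exact ⟨h1, h2.1, hT2 d G hG, h3⟩
  have hCe : ∀ p, Gp N e0 p → ∃ c ∈ C, Eqp N e0 c p := by
    intro p hp
    obtain ⟨d, hd, h, hw, hpi⟩ := hD2 p.1 p.2.2 hp.m ⟨hp.s, p.2.1, hp.w⟩ hp.hx
    have hG : WIso N e0 d.1 (p.2.1.trans h.symm) := hp.w.trans hw.symm
    obtain ⟨G', hG'T, hG'⟩ := hT3 ⟨d, hd⟩ _ hG
    refine ⟨⟨d.1, G', d.2⟩, ?_, ?_⟩
    · rw [hC]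
      exact Set.mem_iUnion.2 ⟨⟨d, hd⟩, G', hG'T, rfl⟩
    · -- first step: the same structure
      have hG'w : WIso N e0 d.1 G' := hT2 ⟨d, hd⟩ G' hG'T
      have s1 : Eqp N e0 ⟨d.1, G', d.2⟩ ⟨d.1, p.2.1.trans h.symm, d.2⟩ := by
        refine ⟨Equiv.refl _, fun _ _ => rfl, fun k y => ?_⟩
        change d.1 ((G'.symm.trans (p.2.1.trans h.symm)) k) y = d.1 k y
        by_cases hk : Lk N d.1 d.2 k
        · have h1 := hG' k hk
          have h2 : (G'.symm.trans (p.2.1.trans h.symm)) k = k := by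
            rw [Equiv.trans_apply, h1, Equiv.apply_symm_apply]
          rw [h2]
        · by_contra hne
          refine hk ⟨G'.symm.trans (p.2.1.trans h.symm), hG'w.symm.trans hG, y.1, y.2, ?_⟩
          exact fun h => hne h.symm
      have s2 : Eqp N e0 ⟨d.1, p.2.1.trans h.symm, d.2⟩ p := by
        have h2 : ((p.2.1.trans h.symm).symm.trans p.2.1) = h := by
          ext k
          simp
        unfold Eqp
        change PI N d.1 p.1 ((p.2.1.trans h.symm).symm.trans p.2.1) d.2 p.2.2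
        rw [h2]
        exact hpi
      exact s1.trans s2
  -- the quotient
  let st : Setoid C := ⟨fun c c' => Eqp N e0 c.1 c'.1, fun c => eqp_refl _, fun h => h.symm,
    fun h h' => h.trans h'⟩
  have : Countable C := hCc.to_subtype
  have hout : ∀ c : C, Eqp N e0 (Quotient.mk st c).out.1 c.1 := fun c => Quotient.mk_out c
  refine ⟨Quotient st, inferInstance, fun i => i.out.1.1, fun i => i.out.1.2.1,
    fun i => i.out.1.2.2, he0, fun i => (hCg _ i.out.2).m, fun i => (hCg _ i.out.2).s,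
    fun i => (hCg _ i.out.2).w, fun i => (hCg _ i.out.2).hx,
    fun i => hfin _ (hCg _ i.out.2).m _ (hCg _ i.out.2).hx, ?_, ?_⟩
  · intro i j hij
    have h1 : Quotient.mk st i.out = Quotient.mk st j.out := Quotient.sound hij
    rw [Quotient.out_eq, Quotient.out_eq] at h1
    exact h1
  · intro e' g' x' hm hs hw hx
    obtain ⟨c, hc, hce⟩ := hCe ⟨e', g', x'⟩ ⟨hm, hs, hw, hx⟩
    exact ⟨Quotient.mk st ⟨c, hc⟩, (hout ⟨c, hc⟩).trans hce⟩

end Pool.Agent.H27.CQ
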