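import Pool.Agent.H71.CQ.Basic

/-!
# Row ONE: countably many types in a similarity class
-/

set_option autoImplicit false

open Set

namespace Pool.Agent.H27.CQ

open Pool.Agent.H71.CQ

/-- infinity of a measurable family of subsets of a countable set is measurable -/
theorem meas_inf {Ω V : Type} [MeasurableSpace Ω] [Countable V] (S : Ω → Set V)
    (h : ∀ v, MeasurableSet {u | v ∈ S u}) : MeasurableSet {u | (S u).Infinite} := by
  classical
  have : {u | (S u).Infinite} = ⋂ F : Finset V, ⋃ v : V, {u | v ∈ S u ∧ v ∉ F} := by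
    ext u
    simp only [Set.mem_ofPred_eq, Set.mem_iInter, Set.mem_iUnion]
    constructor
    · intro hu F
      obtain ⟨v, hv, hF⟩ := hu.exists_notMem_finset F
      exact ⟨v, hv, hF⟩
    · intro hu hf
      obtain ⟨v, hv, hF⟩ := hu hf.toFinset
      exact hF (hf.mem_toFinset.2 hv)
  rw [this]
  refine MeasurableSet.iInter fun F => MeasurableSet.iUnion fun v => ?_
  by_cases hv : v ∈ F
  · have : {u | v ∈ S u ∧ v ∉ F} = ∅ := by
      ext u
      simp [hv]
    rw [this]
    exact MeasurableSet.empty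
  · have : {u | v ∈ S u ∧ v ∉ F} = {u | v ∈ S u} := by
      ext u
      simp [hv]
    rw [this]
    exact h v

section

variable {L : Type} {N : NF L} {e0 : ℕ → ℕ → L} {ι : Type} {e : ι → ℕ → ℕ → L}
  {g : ∀ i, {x // Wp N e0 x} ≃ {x // Wp N (e i) x}} {x : ι → ℕ}

/-- the set of all points is infinite -/
theorem tv_inf (hR : Rep N e0 e g x) : (univ : Set (TV N e0 e x)).Infinite := by
  by_cases h : ∀ k, Wp N e0 k
  · have hinj : Function.Injective (fun k : ℕ => (Sum.inl ⟨k, h k⟩ : TV N e0 e x)) := by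
      intro a b hab
      have := Sum.inl.inj hab
      exact congrArg Subtype.val this
    exact (Set.infinite_range_of_injective hinj).mono (Set.subset_univ _)
  · push Not at h
    obtain ⟨k, hk⟩ := h
    obtain ⟨i, _⟩ := hR.ex e0 (Equiv.refl _) k hR.m0 (fun _ => Iff.rfl) (fun _ _ => rfl) hk
    have hinj : Function.Injective
        (fun n : ℕ => (Sum.inr ⟨i, n, x i, cm_refl _⟩ : TV N e0 e x)) := by
      intro a b hab
      have h1 := Sum.inr.inj hab
      have h2 := eq_of_heq (Sigma.mk.inj h1).2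
      exact congrArg Prod.fst h2
    exact (Set.infinite_range_of_injective hinj).mono (Set.subset_univ _)

/-- membership is measurable -/
theorem am_meas (v : TV N e0 e x) : MeasurableSet {m : ι → ℕ∞ | v ∈ Am N e0 e x m} := by
  rcases v with k | v
  · have : {m : ι → ℕ∞ | (Sum.inl k : TV N e0 e x) ∈ Am N e0 e x m} = univ := by
      ext m
      exact ⟨fun _ => trivial, fun _ => trivial⟩
    rw [this]
    exact MeasurableSet.univ
  · have : {m : ι → ℕ∞ | (Sum.inr v : TV N e0 e x) ∈ Am N e0 e x m} =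
        (fun m : ι → ℕ∞ => m v.1) ⁻¹' {a | (v.2.1 : ℕ∞) < a} := rfl
    rw [this]
    exact measurable_pi_apply _ (Set.to_countable _).measurableSet

theorem srt_iff_of_iso {V V' : Type} {E : V → V → L} {E' : V' → V' → L} (h : Iso E E') (q : L) :
    (Srt E q).Infinite ↔ (Srt E' q).Infinite := by
  obtain ⟨f, hf⟩ := h
  exact not_congr (hf.srt_fin q).symm

end

theorem pf_ONE (hSIL : T_SIL) (hMEM : T_MEM) (hSUB : T_SUB) (hDEC : T_DEC) (hACT : T_ACT)
    (hISO : T_ISO) (hBOR : T_BOR) : T_ONE := by
  classical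
  intro L _ _ N hN hP hF hU e0 ι _ e g x hR
  obtain ⟨a1, a2, a3, a4⟩ := hACT L N hN.toSep hF hU e0 ι e g x hR
  have hI := hISO L N hN.toSep hF hU e0 ι e g x hR
  have hB := hBOR L N hN.toSep e0 ι e g x hR
  -- the structures
  obtain ⟨A, hA⟩ : ∃ A : (ι → ℕ∞) → Set (TV N e0 e x), A = fun m =>
      if (Am N e0 e x m).Infinite then Am N e0 e x m else univ := ⟨_, rfl⟩
  have hAp : ∀ m, (Am N e0 e x m).Infinite → A m = Am N e0 e x m := by
    intro m hm
    rw [hA]
    exact if_pos hm
  have hAn : ∀ m, ¬ (Am N e0 e x m).Infinite → A m = univ := by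
    intro m hm
    rw [hA]
    exact if_neg hm
  have hInf : MeasurableSet {m : ι → ℕ∞ | (Am N e0 e x m).Infinite} := meas_inf _ am_meas
  have hAm : ∀ v, MeasurableSet {m | v ∈ A m} := by
    intro v
    have : {m | v ∈ A m} = ({m : ι → ℕ∞ | (Am N e0 e x m).Infinite} ∩
        {m | v ∈ Am N e0 e x m}) ∪ {m : ι → ℕ∞ | (Am N e0 e x m).Infinite}ᶜ := by
      ext m
      by_cases hm : (Am N e0 e x m).Infinite
      · constructor
        · intro h
          left
          refine ⟨hm, ?_⟩
          show v ∈ Am N e0 e x m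
          rw [← hAp m hm]
          exact h
        · rintro (⟨_, h⟩ | h)
          · show v ∈ A m
            rw [hAp m hm]
            exact h
          · exact absurd hm h
      · constructor
        · intro _
          exact Or.inr hm
        · intro _
          show v ∈ A m
          rw [hAn m hm]
          trivial
    rw [this]
    exact (hInf.inter (am_meas v)).union hInf.compl
  have hAi : ∀ m, (A m).Infinite := by
    intro m
    by_cases hm : (Am N e0 e x m).Infinite
    · rw [hAp m hm]
      exact hm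
    · rw [hAn m hm]
      exact tv_inf hR
  obtain ⟨F, hFm, hFi⟩ := hSUB L (ι → ℕ∞) (TV N e0 e x) (TE N e0 e g x) A hAm hAi
  have hFt : ∀ m, (Am N e0 e x m).Infinite → Iso (F m) (TM N e0 e g x m) := by
    intro m hm
    have h := hFi m
    rw [hAp m hm] at h
    exact h
  -- the set of good multiplicities
  obtain ⟨Q, hQ⟩ : ∃ Q : Set L, Q = Set.range (fun k => e0 k k) ∪
      Set.range (fun v => TE N e0 e g x v v) := ⟨_, rfl⟩
  have hQc : Q.Countable := by
    rw [hQ]
    exact (Set.countable_range _).union (Set.countable_range _)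
  obtain ⟨X, hX⟩ : ∃ X : Set (ι → ℕ∞), X = {m | (Am N e0 e x m).Infinite} ∩
      ({m | Mem N (F m)} ∩ {m | ∀ q ∈ Q, (Srt e0 q).Infinite ↔ (Srt (F m) q).Infinite}) := ⟨_, rfl⟩
  have hXm : MeasurableSet X := by
    rw [hX]
    refine hInf.inter (MeasurableSet.inter (hFm (hMEM L N hN)) ?_)
    have h1 : {m | ∀ q ∈ Q, (Srt e0 q).Infinite ↔ (Srt (F m) q).Infinite} =
        ⋂ q ∈ Q, {m | (Srt e0 q).Infinite ↔ (Srt (F m) q).Infinite} := by
      ext m
      simp only [Set.mem_ofPred_eq, Set.mem_iInter]
    rw [h1]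
    refine MeasurableSet.biInter hQc fun q _ => ?_
    have h2 : MeasurableSet {m | (Srt (F m) q).Infinite} := by
      refine meas_inf _ fun k => ?_
      have h3 : Measurable fun m => F m k k :=
        (measurable_pi_apply k).comp ((measurable_pi_apply k).comp hFm)
      exact h3 (measurableSet_singleton q)
    by_cases hq : (Srt e0 q).Infinite
    · have : {m | (Srt e0 q).Infinite ↔ (Srt (F m) q).Infinite} =
          {m | (Srt (F m) q).Infinite} := by
        ext m
        simp [hq]
      rw [this]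
      exact h2
    · have : {m | (Srt e0 q).Infinite ↔ (Srt (F m) q).Infinite} =
          {m | (Srt (F m) q).Infinite}ᶜ := by
        ext m
        simp [hq]
      rw [this]
      exact h2.compl
  have hXs : ∀ m ∈ X, (Am N e0 e x m).Infinite ∧ Mem N (F m) ∧
      ∀ q, (Srt e0 q).Infinite ↔ (Srt (F m) q).Infinite := by
    intro m hm
    rw [hX] at hm
    obtain ⟨h1, h2, h3⟩ := hm
    refine ⟨h1, h2, fun q => ?_⟩
    by_cases hq : q ∈ Q
    · exact h3 q hq
    · have h4 : Srt e0 q = ∅ := by
        ext k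
        constructor
        · intro hk
          refine absurd ?_ hq
          rw [hQ]
          exact Or.inl ⟨k, hk⟩
        · intro hk
          exact absurd hk (Set.notMem_empty k)
      have h5 : Srt (F m) q = ∅ := by
        ext k
        constructor
        · intro hk
          refine absurd ?_ hq
          rw [hQ]
          obtain ⟨f, hf⟩ := hFi m
          refine Or.inr ⟨(f k).1, ?_⟩
          exact (hf k k).trans hk
        · intro hk
          exact absurd hk (Set.notMem_empty k)
      rw [h4, h5]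
  have hsil := hSIL (ι → ℕ∞) X hXm (Tm N e0 e g x) (fun a _ => a1 a) (fun a _ b _ => a2 a b)
    (fun a _ b _ c _ => a3 a b c) hB
  rcases hsil with ⟨D, hDX, hDc, hD⟩ | ⟨G, hGm, hGX, hG⟩
  · refine ⟨F '' D, hDc.image _, fun E hE hS => ?_⟩
    obtain ⟨hs, G, hGw⟩ := hS
    obtain ⟨m, hm⟩ := hDEC L N hN.toSep hF hU e0 ι e g x hR E G hE hs hGw
    have hmi : (Am N e0 e x m).Infinite := by
      obtain ⟨f, _⟩ := hm
      exact Set.infinite_coe_iff.1 (Infinite.of_injective f f.injective)
    have hEF : Iso E (F m) := hm.trans (hFt m hmi).symm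
    have hmX : m ∈ X := by
      rw [hX]
      refine ⟨hmi, ?_, fun q _ => ?_⟩
      · obtain ⟨f, hf⟩ := hEF
        exact hf.mem hE
      · exact (hs q).trans (srt_iff_of_iso hEF q)
    obtain ⟨d, hd, hmd⟩ := hD m hmX
    have h1 := a4 m d hmd
    have h2 := (hFt d (hXs d (hDX hd)).1).symm
    exact ⟨F d, ⟨d, hd, rfl⟩, (hm.trans h1).trans h2⟩
  · refine absurd ?_ hP
    refine ⟨fun u => F (G u), hFm.comp hGm, fun u => (hXs _ (hGX u)).2.1, ?_⟩
    intro u v huv hiso
    obtain ⟨u1, _, u3⟩ := hXs _ (hGX u)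
    obtain ⟨v1, _, v3⟩ := hXs _ (hGX v)
    refine hG u v huv (hI _ _ ?_ ?_ ?_)
    · intro q
      exact (u3 q).trans (srt_iff_of_iso (hFt _ u1) q)
    · intro q
      exact (v3 q).trans (srt_iff_of_iso (hFt _ v1) q)
    · exact ((hFt _ u1).symm.trans hiso).trans (hFt _ v1)

end Pool.Agent.H27.CQ
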