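import Pool.Agent.H71.CQ.Basic

/-!
# Row UNX: the definable sets of the coding structure
-/

set_option autoImplicit false
set_option linter.unnecessarySeqFocus false

open Set

namespace Pool.Agent.H27.CQ

open Pool.Agent.H71.CQ

section

variable {L : Type} {N : NF L} {e : ℕ → ℕ → L} {x y : ℕ} {l0 l1 : L} {u : ℕ → Bool}

theorem ue_rl (v : SQ N fun _ : Bool × ℕ => e) (k : {x // Wp N e x}) :
    UE N e x y l0 l1 u (Sum.inr v) (Sum.inl k) = e v.2 k := rfl

theorem ue_lr (v : SQ N fun _ : Bool × ℕ => e) (k : {x // Wp N e x}) :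
    UE N e x y l0 l1 u (Sum.inl k) (Sum.inr v) = e k v.2 := rfl

theorem ue_rr {v w : SQ N fun _ : Bool × ℕ => e} (h : v.1 ≠ w.1) :
    UE N e x y l0 l1 u (Sum.inr v) (Sum.inr w) = Cr N e x y l0 l1 u v w := by
  exact if_neg h

theorem cr_lt {v w : SQ N fun _ : Bool × ℕ => e} (h : Ol v.1 w.1) :
    Cr N e x y l0 l1 u v w = Cl N e x y l0 l1 u v w := by
  classical
  unfold Cr
  rw [if_pos h]

theorem cr_gt {v w : SQ N fun _ : Bool × ℕ => e} (h : ¬ Ol v.1 w.1) :
    Cr N e x y l0 l1 u v w = N.rev (Cl N e x y l0 l1 u w v) := by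
  classical
  unfold Cr
  rw [if_neg h]

theorem cl_fr {v w : SQ N fun _ : Bool × ℕ => e}
    (h : ¬ (v.1.1 = false ∧ w.1.1 = true ∧ (v.2 : ℕ) = x ∧ (w.2 : ℕ) = y)) :
    Cl N e x y l0 l1 u v w = fr N (e v.2 v.2) (e w.2 w.2) := by
  classical
  unfold Cl
  rw [if_neg h]

theorem cl_one {v w : SQ N fun _ : Bool × ℕ => e}
    (h : v.1.1 = false ∧ w.1.1 = true ∧ (v.2 : ℕ) = x ∧ (w.2 : ℕ) = y) (hg : Hg u v.1.2 w.1.2) :
    Cl N e x y l0 l1 u v w = l1 := by
  classical
  unfold Cl
  rw [if_pos h, if_pos hg]

theorem cl_zero {v w : SQ N fun _ : Bool × ℕ => e}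
    (h : v.1.1 = false ∧ w.1.1 = true ∧ (v.2 : ℕ) = x ∧ (w.2 : ℕ) = y) (hg : ¬ Hg u v.1.2 w.1.2) :
    Cl N e x y l0 l1 u v w = l0 := by
  classical
  unfold Cl
  rw [if_pos h, if_neg hg]

theorem hg_left {i n : ℕ} (hi : i < 4) : Hg u i n ↔ 4 ≤ n ∧ (i = 0 ∨ i = 2) := by
  unfold Hg
  constructor
  · rintro (⟨h, _⟩ | h | ⟨h, _⟩)
    · omega
    · exact h
    · omega
  · intro h
    exact Or.inr (Or.inl h)

theorem hg_right {i m : ℕ} (hi : i < 4) : Hg u m i ↔ 4 ≤ m ∧ (i = 0 ∨ i = 2) := by
  unfold Hg
  constructor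
  · rintro (h | ⟨h, _⟩ | ⟨_, h, _⟩)
    · exact h
    · omega
    · omega
  · intro h
    exact Or.inl h

end

theorem pf_UNX : T_UNX := by
  classical
  intro L N hN e he x y hx hy l0 l1 hl u a
  constructor
  · constructor
    · intro H
      rcases a with k | ⟨⟨b, m⟩, z, hz⟩
      · exfalso
        have h0 := H 0
        have h1 := H 1
        rw [ue_rl] at h0 h1
        have h2 : e x k = l1 := by simpa using h0
        have h3 : e x k = l0 := by simpa using h1
        exact hl (h3.symm.trans h2)
      · have H0 : UE N e x y l0 l1 u (Sum.inr ⟨(false, 0), x, hx⟩) (Sum.inr ⟨(b, m), z, hz⟩) = l1 := by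
          simpa using H 0
        have H1 : UE N e x y l0 l1 u (Sum.inr ⟨(false, 1), x, hx⟩) (Sum.inr ⟨(b, m), z, hz⟩) = l0 := by
          simpa using H 1
        have H2 : UE N e x y l0 l1 u (Sum.inr ⟨(false, 2), x, hx⟩) (Sum.inr ⟨(b, m), z, hz⟩) = l1 := by
          simpa using H 2
        have H3 : UE N e x y l0 l1 u (Sum.inr ⟨(false, 3), x, hx⟩) (Sum.inr ⟨(b, m), z, hz⟩) = l0 := by
          simpa using H 3
        cases b with
        | false =>
          exfalso
          rcases Nat.lt_or_ge m 2 with hm | hm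
          · rw [ue_rr (by simp <;> omega), cr_gt (by simp [Ol] <;> omega), cl_fr (by simp)] at H2 H3
            exact hl (H3.symm.trans H2)
          · rw [ue_rr (by simp <;> omega), cr_lt (by simp [Ol] <;> omega), cl_fr (by simp)] at H0 H1
            exact hl (H1.symm.trans H0)
        | true =>
          by_cases hzy : z = y
          · subst hzy
            rcases Nat.lt_or_ge m 4 with hm | hm
            · exfalso
              rw [ue_rr (by simp), cr_lt (by simp [Ol]), cl_zero (by simp)
                (by show ¬ Hg u 0 m; rw [hg_left (by norm_num)]; omega)] at H0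
              exact hl H0
            · exact ⟨m, hm, rfl⟩
          · exfalso
            rw [ue_rr (by simp), cr_lt (by simp [Ol]), cl_fr (by simp [hzy])] at H0 H1
            exact hl (H1.symm.trans H0)
    · rintro ⟨n, hn, rfl⟩ i
      have hi := i.2
      rw [ue_rr (by simp), cr_lt (by simp [Ol])]
      by_cases h : i = 0 ∨ i = 2
      · rw [if_pos h, cl_one (by simp)]
        rw [hg_left (by simp)]
        refine ⟨hn, ?_⟩
        rcases h with rfl | rfl
        · left; rfl
        · right; rfl
      · rw [if_neg h, cl_zero (by simp)]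
        rw [hg_left (by simp)]
        rintro ⟨_, h1 | h1⟩
        · exact h (Or.inl (Fin.ext h1))
        · exact h (Or.inr (Fin.ext h1))
  · constructor
    · intro H
      rcases a with k | ⟨⟨b, m⟩, z, hz⟩
      · exfalso
        have h0 := H 0
        have h1 := H 1
        rw [ue_lr] at h0 h1
        have h2 : e k y = l1 := by simpa using h0
        have h3 : e k y = l0 := by simpa using h1
        exact hl (h3.symm.trans h2)
      · have H0 : UE N e x y l0 l1 u (Sum.inr ⟨(b, m), z, hz⟩) (Sum.inr ⟨(true, 0), y, hy⟩) = l1 := by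
          simpa using H 0
        have H1 : UE N e x y l0 l1 u (Sum.inr ⟨(b, m), z, hz⟩) (Sum.inr ⟨(true, 1), y, hy⟩) = l0 := by
          simpa using H 1
        have H2 : UE N e x y l0 l1 u (Sum.inr ⟨(b, m), z, hz⟩) (Sum.inr ⟨(true, 2), y, hy⟩) = l1 := by
          simpa using H 2
        have H3 : UE N e x y l0 l1 u (Sum.inr ⟨(b, m), z, hz⟩) (Sum.inr ⟨(true, 3), y, hy⟩) = l0 := by
          simpa using H 3
        cases b with
        | true =>
          exfalso
          rcases Nat.lt_or_ge m 2 with hm | hm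
          · rw [ue_rr (by simp <;> omega), cr_lt (by simp [Ol] <;> omega), cl_fr (by simp)] at H2 H3
            exact hl (H3.symm.trans H2)
          · rw [ue_rr (by simp <;> omega), cr_gt (by simp [Ol] <;> omega), cl_fr (by simp)] at H0 H1
            exact hl (H1.symm.trans H0)
        | false =>
          by_cases hzx : z = x
          · subst hzx
            rcases Nat.lt_or_ge m 4 with hm | hm
            · exfalso
              rw [ue_rr (by simp), cr_lt (by simp [Ol]), cl_zero (by simp)
                (by show ¬ Hg u m 0; rw [hg_right (by norm_num)]; omega)] at H0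
              exact hl H0
            · exact ⟨m, hm, rfl⟩
          · exfalso
            rw [ue_rr (by simp), cr_lt (by simp [Ol]), cl_fr (by simp [hzx])] at H0 H1
            exact hl (H1.symm.trans H0)
    · rintro ⟨n, hn, rfl⟩ i
      have hi := i.2
      rw [ue_rr (by simp), cr_lt (by simp [Ol])]
      by_cases h : i = 0 ∨ i = 2
      · rw [if_pos h, cl_one (by simp)]
        rw [hg_right (by simp)]
        refine ⟨hn, ?_⟩
        rcases h with rfl | rfl
        · left; rfl
        · right; rfl
      · rw [if_neg h, cl_zero (by simp)]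
        rw [hg_right (by simp)]
        rintro ⟨_, h1 | h1⟩
        · exact h (Or.inl (Fin.ext h1))
        · exact h (Or.inr (Fin.ext h1))

end Pool.Agent.H27.CQ
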